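import Pool.Agent.KTK.Stmts2

/-!
# Gaps between best denominators (row GAP of squad KTK)

Problem MP_b2962a_an.
-/

set_option autoImplicit false

namespace Pool.Agent.KTK.H76

open Pool.Agent.PRT Pool.Agent.KTK

theorem gap : GapStmt := by
  intro w q q' hq hqq hlt
  set p1 := round ((q : ℝ) • w).1 with hp1
  set p2 := round ((q : ℝ) • w).2 with hp2
  set r1 := round ((q' : ℝ) • w).1 with hr1
  set r2 := round ((q' : ℝ) • w).2 with hr2
  set u : E := (q : ℝ) • w - iv p1 p2 with hu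
  set u' : E := (q' : ℝ) • w - iv r1 r2 with hu'
  have e1 : nd ((q : ℝ) • w) = ‖u‖ := rfl
  have e2 : nd ((q' : ℝ) • w) = ‖u'‖ := rfl
  rw [e1, e2] at hlt
  rw [e1]
  have hq0 : (0 : ℝ) < q := by exact_mod_cast hq
  have hq' : (q : ℝ) < q' := by exact_mod_cast hqq
  have hz1 : (((q : ℤ) * r1 - (q' : ℤ) * p1 : ℤ) : ℝ) = ((q' : ℝ) • u - (q : ℝ) • u').1 := by
    rw [hu, hu']
    unfold iv
    push_cast
    simp only [Prod.fst_sub, Prod.smul_fst, smul_eq_mul]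
    ring
  have hz2 : (((q : ℤ) * r2 - (q' : ℤ) * p2 : ℤ) : ℝ) = ((q' : ℝ) • u - (q : ℝ) • u').2 := by
    rw [hu, hu']
    unfold iv
    push_cast
    simp only [Prod.snd_sub, Prod.smul_snd, smul_eq_mul]
    ring
  have hle : ‖(q' : ℝ) • u - (q : ℝ) • u'‖ ≤ 2 * q' * ‖u‖ := by
    have h1 := norm_sub_le ((q' : ℝ) • u) ((q : ℝ) • u')
    rw [norm_smul, norm_smul, Real.norm_eq_abs, Real.norm_eq_abs,
      abs_of_nonneg (Nat.cast_nonneg q'), abs_of_nonneg (Nat.cast_nonneg q)] at h1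
    have h2 : (q : ℝ) * ‖u'‖ ≤ q' * ‖u‖ :=
      mul_le_mul hq'.le hlt.le (norm_nonneg _) (Nat.cast_nonneg q')
    linarith
  by_cases h1 : (q : ℤ) * r1 - (q' : ℤ) * p1 = 0
  · by_cases h2 : (q : ℤ) * r2 - (q' : ℤ) * p2 = 0
    · exfalso
      rw [h1, Int.cast_zero] at hz1
      rw [h2, Int.cast_zero] at hz2
      have h3 : (q' : ℝ) • u - (q : ℝ) • u' = 0 := Prod.ext hz1.symm hz2.symm
      have h4 : (q' : ℝ) • u = (q : ℝ) • u' := sub_eq_zero.1 h3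
      have h5 := congrArg norm h4
      rw [norm_smul, norm_smul, Real.norm_eq_abs, Real.norm_eq_abs,
        abs_of_nonneg (Nat.cast_nonneg q'), abs_of_nonneg (Nat.cast_nonneg q)] at h5
      have h6 : (q : ℝ) * ‖u'‖ < q * ‖u‖ := mul_lt_mul_of_pos_left hlt hq0
      have h7 : (q : ℝ) * ‖u‖ ≤ q' * ‖u‖ := mul_le_mul_of_nonneg_right hq'.le (norm_nonneg _)
      linarith
    · have h3 : (1 : ℝ) ≤ |(((q : ℤ) * r2 - (q' : ℤ) * p2 : ℤ) : ℝ)| := by
        exact_mod_cast Int.one_le_abs h2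
      rw [hz2] at h3
      have h4 : |((q' : ℝ) • u - (q : ℝ) • u').2| ≤ ‖(q' : ℝ) • u - (q : ℝ) • u'‖ := norm_snd_le ((q' : ℝ) • u - (q : ℝ) • u')
      linarith
  · have h3 : (1 : ℝ) ≤ |(((q : ℤ) * r1 - (q' : ℤ) * p1 : ℤ) : ℝ)| := by
      exact_mod_cast Int.one_le_abs h1
    rw [hz1] at h3
    have h4 : |((q' : ℝ) • u - (q : ℝ) • u').1| ≤ ‖(q' : ℝ) • u - (q : ℝ) • u'‖ := norm_fst_le ((q' : ℝ) • u - (q : ℝ) • u')
    linarith

end Pool.Agent.KTK.H76
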