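import Pool.Agent.KTK.Stmts

/-!
# Bounded mean motion: no periodic points (row NPR of squad KTK)

Problem MP_b2962a_an.
-/

set_option autoImplicit false

namespace Pool.Agent.KTK.H76

open Pool.Agent.PRT Pool.Agent.KTK
open scoped ContDiff

theorem eqv_iter (F : E → E) (h : Eqv F) (m : ℕ) : Eqv (F^[m]) := by
  induction m with
  | zero => intro a b z; rfl
  | succ m ih =>
    intro a b z
    rw [Function.iterate_succ_apply', Function.iterate_succ_apply', ih a b z, h a b]

theorem npr : NprStmt := by
  intro F w C hE hd hne q a b z hq hz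
  have h1 : ∀ n : ℕ, F^[q * n] z = z + (n : ℝ) • iv a b := by
    intro n
    induction n with
    | zero => simp
    | succ n ih =>
      rw [Nat.mul_succ, Function.iterate_add_apply, hz, eqv_iter F hE (q * n) a b z, ih]
      push_cast
      rw [add_smul, one_smul, add_assoc]
  have hpos : 0 < ‖(q : ℝ) • w - iv a b‖ := norm_pos_iff.2 (sub_ne_zero.2 (hne q a b hq))
  obtain ⟨n, hn⟩ := exists_nat_gt (C / ‖(q : ℝ) • w - iv a b‖)
  have h2 := hd (q * n) z
  rw [h1 n] at h2
  have e : z + (n : ℝ) • iv a b - z - ((q * n : ℕ) : ℝ) • w =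
      -((n : ℝ) • ((q : ℝ) • w - iv a b)) := by
    push_cast
    rw [smul_sub, smul_smul, mul_comm (q : ℝ)]
    abel
  rw [e, norm_neg, norm_smul, Real.norm_eq_abs, abs_of_nonneg (Nat.cast_nonneg n)] at h2
  rw [div_lt_iff₀ hpos] at hn
  linarith

end Pool.Agent.KTK.H76
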